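import Pool.Agent.K4H23.NZ.Spec

set_option autoImplicit false

open Finset Pointwise

namespace Pool.Agent.K4H23.NZ

theorem b1 {e : ℕ} (he : 1 ≤ e) {M u v : ℝ} (hM : 0 ≤ M) (hv : 0 < v) (hvu : v ≤ u) :
    v * g e M u ≤ u * g e M v := by
  have hu : 0 < u := lt_of_lt_of_le hv hvu
  have he' : (e : ℝ) ≠ 0 := by
    have : e ≠ 0 := by omega
    exact_mod_cast this
  unfold g
  set a := v ^ (1 / (e : ℝ)) with ha
  set b := u ^ (1 / (e : ℝ)) with hb
  have ha0 : 0 ≤ a := Real.rpow_nonneg hv.le _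
  have hb0 : 0 ≤ b := Real.rpow_nonneg hu.le _
  have hab : a ≤ b := Real.rpow_le_rpow hv.le hvu (by positivity)
  have hva : v = a ^ e := by
    rw [ha, ← Real.rpow_natCast, ← Real.rpow_mul hv.le, one_div, inv_mul_cancel₀ he', Real.rpow_one]
  have hub : u = b ^ e := by
    rw [hb, ← Real.rpow_natCast, ← Real.rpow_mul hu.le, one_div, inv_mul_cancel₀ he', Real.rpow_one]
  calc v * (b + M) ^ e = (a * (b + M)) ^ e := by rw [mul_pow, ← hva]
    _ ≤ (b * (a + M)) ^ e := by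
        apply pow_le_pow_left₀ (by positivity)
        nlinarith
    _ = u * (a + M) ^ e := by rw [mul_pow, ← hub]

theorem b2 {e : ℕ} (he : 1 ≤ e) {M u y : ℝ} (hM : 0 < M) (hu : 0 < u) (hy : 0 < y) :
    g (e + 1) M (y * u) ≤ (y + M) * g e M u := by
  have he' : (e : ℝ) ≠ 0 := by
    have : e ≠ 0 := by omega
    exact_mod_cast this
  have he1 : (e : ℝ) + 1 ≠ 0 := by positivity
  unfold g
  obtain ⟨x, hx⟩ : ∃ x, x = u ^ (1 / (e : ℝ)) := ⟨_, rfl⟩
  have hx0 : 0 < x := by rw [hx]; exact Real.rpow_pos_of_pos hu _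
  have hux : u = x ^ (e : ℝ) := by
    rw [hx, ← Real.rpow_mul hu.le, one_div, inv_mul_cancel₀ he', Real.rpow_one]
  rw [← hx]
  obtain ⟨α, hα⟩ : ∃ α : ℝ, α = (e : ℝ) / ((e : ℝ) + 1) := ⟨_, rfl⟩
  obtain ⟨β, hβ⟩ : ∃ β : ℝ, β = 1 / ((e : ℝ) + 1) := ⟨_, rfl⟩
  have hα0 : 0 ≤ α := by rw [hα]; positivity
  have hβ0 : 0 ≤ β := by rw [hβ]; positivity
  have hαβ : α + β = 1 := by rw [hα, hβ]; field_simp
  have hX : 0 < x + M := by linarith
  have hY : 0 < y + M := by linarith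
  have e0 : (y * u) ^ (1 / ((e + 1 : ℕ) : ℝ)) = x ^ α * y ^ β := by
    rw [Real.mul_rpow hy.le hu.le, hux, ← Real.rpow_mul hx0.le, hα, hβ]
    push_cast
    rw [mul_comm, mul_one_div]
  rw [e0]
  have a1 := Real.geom_mean_le_arith_mean2_weighted hα0 hβ0
    (show 0 ≤ x / (x + M) by positivity) (show 0 ≤ y / (y + M) by positivity) hαβ
  have a2 := Real.geom_mean_le_arith_mean2_weighted hα0 hβ0
    (show 0 ≤ M / (x + M) by positivity) (show 0 ≤ M / (y + M) by positivity) hαβ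
  have hXp : 0 < (x + M) ^ α := Real.rpow_pos_of_pos hX _
  have hYp : 0 < (y + M) ^ β := Real.rpow_pos_of_pos hY _
  have s : x ^ α * y ^ β + M ≤ (x + M) ^ α * (y + M) ^ β := by
    rw [Real.div_rpow hx0.le hX.le, Real.div_rpow hy.le hY.le] at a1
    rw [Real.div_rpow hM.le hX.le, Real.div_rpow hM.le hY.le] at a2
    have hMM : M ^ α * M ^ β = M := by
      rw [← Real.rpow_add hM, hαβ, Real.rpow_one]
    have sum : α * (x / (x + M)) + β * (y / (y + M)) + (α * (M / (x + M)) + β * (M / (y + M))) = 1 := by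
      have h1 : x / (x + M) + M / (x + M) = 1 := by rw [← add_div, div_self hX.ne']
      have h2 : y / (y + M) + M / (y + M) = 1 := by rw [← add_div, div_self hY.ne']
      linear_combination α * h1 + β * h2 + hαβ
    have t : x ^ α / (x + M) ^ α * (y ^ β / (y + M) ^ β) +
        M ^ α / (x + M) ^ α * (M ^ β / (y + M) ^ β) ≤ 1 := by linarith
    have t2 : x ^ α / (x + M) ^ α * (y ^ β / (y + M) ^ β) +
        M ^ α / (x + M) ^ α * (M ^ β / (y + M) ^ β)
        = (x ^ α * y ^ β + M ^ α * M ^ β) / ((x + M) ^ α * (y + M) ^ β) := by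
      field_simp
    rw [t2, hMM, div_le_one (by positivity)] at t
    exact t
  have s0 : 0 ≤ x ^ α * y ^ β + M := by
    have := Real.rpow_nonneg hx0.le α
    have := Real.rpow_nonneg hy.le β
    positivity
  calc (x ^ α * y ^ β + M) ^ (e + 1) ≤ ((x + M) ^ α * (y + M) ^ β) ^ (e + 1) :=
        pow_le_pow_left₀ s0 s _
    _ = (y + M) * (x + M) ^ e := by
        rw [mul_pow, ← Real.rpow_natCast ((x + M) ^ α), ← Real.rpow_natCast ((y + M) ^ β),
          ← Real.rpow_mul hX.le, ← Real.rpow_mul hY.le]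
        have h1 : α * ((e + 1 : ℕ) : ℝ) = (e : ℝ) := by
          rw [hα]; push_cast; field_simp
        have h2 : β * ((e + 1 : ℕ) : ℝ) = 1 := by
          rw [hβ]; push_cast; field_simp
        rw [h1, h2, Real.rpow_one, Real.rpow_natCast, mul_comm]

end Pool.Agent.K4H23.NZ
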